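import Pool.Agent.Lib.helper5.Groth

namespace Pool.Agent.Results.MP_590c78_gt.PerfectPre

theorem result : ∃ (X Y : Type) (_ : TopologicalSpace X) (_ : TopologicalSpace Y)
    (_ : T35Space X) (_ : T35Space Y) (f : X → Y), Continuous f ∧ IsClosedMap f ∧
      Function.Surjective f ∧ (∀ y, IsCompact (f ⁻¹' {y})) ∧ H5G.Groth Y ∧ H5G.WGroth Y ∧
      ¬ H5G.Groth X ∧ ¬ H5G.WGroth X := H5G.main

end Pool.Agent.Results.MP_590c78_gt.PerfectPre
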